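import Pool.Agent.Helper221.CUR.Main

/-!
# A shellable simplicial 3-ball that is not convex union representable

The example has 12 vertices and 52 tetrahedra (a shellable 3-sphere with 53 tetrahedra, minus one
of them).  Its vertex `0` is adjacent to all other vertices, and there are no nonface `N ∋ 0` and
vertex `v ∉ N` such that all sets `(N \ {u}) ∪ {v}`, `u ∈ N`, are faces.  The proof that such a
complex is not convex union representable is in `Pool.Agent.Helper221.CUR.Lemma`: shrink the open
sets to compact convex sets `K_i` with the same nerve and convex union `P`, take the weighted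
distances `w_i d(x, K_i)` with a small weight `w_0`, and choose a nonface `N` for which
`min_{x ∈ P} max_{i ∈ N} w_i d(x, K_i)` is as small as possible, with `|N|` minimal; the minimising
point `x` lies in some `K_v`, and moving `x` slightly towards a point of `⋂_{i ∈ N \ {u}} K_i`
shows that `(N \ {u}) ∪ {v}` is a face; the small weight forces `0 ∈ N`.
-/

set_option autoImplicit false

namespace Pool.Agent.Results.MP_0f1017_co.ShellableBallNotCUR

open Pool.Agent.Helper221.CUR

/-- There is a shellable, hence constructible, simplicial 3-ball that is not convex union
representable. -/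
theorem result : ∃ (n : ℕ) (Δ : Cpx n), Δ.IsBall 3 ∧ Δ.Shellable 3 ∧
    Constructible 4 (Δ.faces : Set (Finset (Fin n))) ∧ ¬ Δ.ConvexUnionRepresentable :=
  ⟨12, BB, BB_ball, BB_shellable, BB_shellable.constructible, BB_not_cur⟩

end Pool.Agent.Results.MP_0f1017_co.ShellableBallNotCUR
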